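import Mathlib

/-! A contracting forward composition of degree-two Blaschke products whose interior orbits
converge slowly to the boundary and whose Denjoy-Wolff set has full measure. -/

open Set Filter Topology MeasureTheory Complex Metric

namespace Pool.Agent.Results.MP_9b5b1e_an.FullMeasure

/-- `w` is the radial limit of `f` at the boundary point `exp (i θ)`. -/
def RadialLimit (f : ℂ → ℂ) (θ : ℝ) (w : ℂ) : Prop :=
  Tendsto (fun t : ℝ => f (t * exp (θ * I))) (𝓝[<] 1) (𝓝 w)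

/-- Inner functions: holomorphic self-maps of the unit disc with unimodular radial limits at
almost every point of the unit circle. -/
def IsInner (f : ℂ → ℂ) : Prop :=
  DifferentiableOn ℂ f (ball 0 1) ∧ MapsTo f (ball 0 1) (ball 0 1) ∧
    ∀ᵐ θ ∂(volume.restrict (Ioc 0 (2 * Real.pi))), ∃ w : ℂ, ‖w‖ = 1 ∧ RadialLimit f θ w

/-- Forward compositions `F_n = f_{n-1} ∘ ... ∘ f_0`. -/
def forward (f : ℕ → ℂ → ℂ) : ℕ → ℂ → ℂ
  | 0 => id
  | n + 1 => f n ∘ forward f n

/-- The hyperbolic distance of the unit disc. -/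
noncomputable def hypDist (z w : ℂ) : ℝ :=
  2 * Real.artanh ‖(z - w) / (1 - (starRingEnd ℂ) w * z)‖

/-- The Denjoy-Wolff set, in the angular coordinate. -/
def DWSet (F : ℕ → ℂ → ℂ) : Set ℝ :=
  {θ | ∃ w : ℕ → ℂ, (∀ n, RadialLimit (F n) θ (w n)) ∧
    Tendsto (fun n => ‖w n - F n 0‖) atTop (𝓝 0)}

/-- The Moebius maps. -/
noncomputable def mob (a : ℝ) (z : ℂ) : ℂ := (z + a) / (1 + a * z)

/-- The degree-two Blaschke products fixing zero. -/
noncomputable def hh (r : ℝ) (z : ℂ) : ℂ := z * mob r z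

lemma den_ne {a : ℝ} (ha : |a| < 1) {z : ℂ} (hz : ‖z‖ ≤ 1) : (1 : ℂ) + a * z ≠ 0 := by
  intro h
  have h1 : (a : ℂ) * z = -1 := by linear_combination h
  have h2 := congrArg norm h1
  rw [norm_mul, norm_neg, norm_one, Complex.norm_real, Real.norm_eq_abs] at h2
  have : |a| * ‖z‖ ≤ |a| * 1 := by gcongr
  linarith

lemma norm_sq_identity (a : ℝ) (z : ℂ) :
    ‖(1 : ℂ) + a * z‖ ^ 2 - ‖z + a‖ ^ 2 = (1 - a ^ 2) * (1 - ‖z‖ ^ 2) := by
  rw [← Complex.normSq_eq_norm_sq, ← Complex.normSq_eq_norm_sq, ← Complex.normSq_eq_norm_sq,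
    Complex.normSq_apply, Complex.normSq_apply, Complex.normSq_apply]
  simp
  ring

lemma mob_lt {a : ℝ} (ha : |a| < 1) {z : ℂ} (hz : ‖z‖ < 1) : ‖mob a z‖ < 1 := by
  unfold mob
  rw [norm_div, div_lt_one (norm_pos_iff.mpr (den_ne ha hz.le))]
  have h := norm_sq_identity a z
  have h1 : 0 < 1 - a ^ 2 := by nlinarith [abs_lt.mp ha]
  have h2 : 0 < 1 - ‖z‖ ^ 2 := by nlinarith [norm_nonneg z]
  have h3 := mul_pos h1 h2
  exact lt_of_pow_lt_pow_left₀ 2 (norm_nonneg _) (by linarith)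

lemma mob_eq {a : ℝ} (ha : |a| < 1) {z : ℂ} (hz : ‖z‖ = 1) : ‖mob a z‖ = 1 := by
  unfold mob
  rw [norm_div, div_eq_one_iff_eq (norm_ne_zero_iff.mpr (den_ne ha hz.le))]
  have h := norm_sq_identity a z
  rw [hz] at h
  have h4 : ‖z + a‖ ^ 2 = ‖(1 : ℂ) + a * z‖ ^ 2 := by linarith
  exact (pow_left_inj₀ (norm_nonneg _) (norm_nonneg _) (by norm_num)).mp h4

lemma mob_le {a : ℝ} (ha : |a| < 1) {z : ℂ} (hz : ‖z‖ ≤ 1) : ‖mob a z‖ ≤ 1 := by
  rcases hz.lt_or_eq with h | h
  · exact (mob_lt ha h).le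
  · exact (mob_eq ha h).le

lemma mob_diff {a : ℝ} (ha : |a| < 1) {z : ℂ} (hz : ‖z‖ ≤ 1) : DifferentiableAt ℂ (mob a) z := by
  unfold mob
  refine DifferentiableAt.fun_div (d := fun z : ℂ => 1 + a * z) (by fun_prop) (by fun_prop) ?_
  exact den_ne ha hz

lemma hh_lt {r : ℝ} (hr : |r| < 1) {z : ℂ} (hz : ‖z‖ < 1) : ‖hh r z‖ < 1 := by
  unfold hh
  rw [norm_mul]
  nlinarith [mob_lt hr hz, norm_nonneg z, norm_nonneg (mob r z)]

lemma hh_le_norm {r : ℝ} (hr : |r| < 1) {z : ℂ} (hz : ‖z‖ ≤ 1) : ‖hh r z‖ ≤ ‖z‖ := by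
  unfold hh
  rw [norm_mul]
  exact mul_le_of_le_one_right (norm_nonneg _) (mob_le hr hz)

lemma hh_eq {r : ℝ} (hr : |r| < 1) {z : ℂ} (hz : ‖z‖ = 1) : ‖hh r z‖ = 1 := by
  unfold hh
  rw [norm_mul, mob_eq hr hz, hz, one_mul]

lemma hh_diff {r : ℝ} (hr : |r| < 1) {z : ℂ} (hz : ‖z‖ ≤ 1) : DifferentiableAt ℂ (hh r) z := by
  unfold hh
  exact differentiableAt_id.mul (mob_diff hr hz)

lemma hh_zero (r : ℝ) : hh r 0 = 0 := by simp [hh]

lemma mob_inv {a : ℝ} (ha : |a| < 1) {z : ℂ} (hz : ‖z‖ ≤ 1) : mob (-a) (mob a z) = z := by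
  unfold mob
  have h1 := den_ne ha hz
  have h1c : (1 : ℂ) + z * a ≠ 0 := by rw [mul_comm]; exact h1
  have h2 : (1 : ℂ) - a ^ 2 ≠ 0 := by
    have : (1 : ℝ) - a ^ 2 ≠ 0 := by nlinarith [abs_lt.mp ha]
    exact_mod_cast this
  have h3 : (1 : ℂ) + ((-a : ℝ) : ℂ) * ((z + a) / (1 + a * z)) = (1 - a ^ 2) / (1 + a * z) := by
    push_cast
    field_simp
    ring
  rw [h3]
  have h4 : (z + a) / (1 + a * z) + ((-a : ℝ) : ℂ) = (1 - a ^ 2) * z / (1 + a * z) := by
    push_cast
    field_simp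
    ring
  rw [h4]
  field_simp

lemma mob_inv' {a : ℝ} (ha : |a| < 1) {z : ℂ} (hz : ‖z‖ ≤ 1) : mob a (mob (-a) z) = z := by
  have := mob_inv (a := -a) (by rwa [abs_neg]) hz
  rwa [neg_neg] at this

/-- Moebius maps preserve the pseudo-hyperbolic distance. -/
lemma mob_pseudo {a : ℝ} (ha : |a| < 1) {z w : ℂ} (hz : ‖z‖ < 1) (hw : ‖w‖ < 1) :
    ‖(mob a z - mob a w) / (1 - (starRingEnd ℂ) (mob a w) * mob a z)‖ =
      ‖(z - w) / (1 - (starRingEnd ℂ) w * z)‖ := by
  have h1 := den_ne ha hz.le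
  have h2 := den_ne ha hw.le
  have h1c : (1 : ℂ) + z * a ≠ 0 := by rw [mul_comm]; exact h1
  have h2c : (1 : ℂ) + w * a ≠ 0 := by rw [mul_comm]; exact h2
  have h2' : (1 : ℂ) + a * (starRingEnd ℂ) w ≠ 0 := by
    have h := den_ne ha (z := (starRingEnd ℂ) w) (by rw [RCLike.norm_conj]; exact hw.le)
    exact h
  have h2d : (1 : ℂ) + (starRingEnd ℂ) w * a ≠ 0 := by rw [mul_comm]; exact h2'
  have h3 : (1 : ℂ) - a ^ 2 ≠ 0 := by
    have : (1 : ℝ) - a ^ 2 ≠ 0 := by nlinarith [abs_lt.mp ha]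
    exact_mod_cast this
  have e1 : mob a z - mob a w = (1 - a ^ 2) * (z - w) / ((1 + a * z) * (1 + a * w)) := by
    unfold mob
    field_simp
    ring
  have e2 : 1 - (starRingEnd ℂ) (mob a w) * mob a z =
      (1 - a ^ 2) * (1 - (starRingEnd ℂ) w * z) / ((1 + a * z) * (1 + a * (starRingEnd ℂ) w)) := by
    unfold mob
    simp only [map_div₀, map_add, map_mul, map_one, Complex.conj_ofReal]
    field_simp
    ring
  have e3 : ‖(1 : ℂ) + a * (starRingEnd ℂ) w‖ = ‖(1 : ℂ) + a * w‖ := by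
    rw [← RCLike.norm_conj ((1 : ℂ) + a * w)]
    simp
  rw [e1, e2]
  simp only [norm_div, norm_mul]
  rw [e3]
  have n1 := norm_ne_zero_iff.mpr h1
  have n2 := norm_ne_zero_iff.mpr h2
  have n3 := norm_ne_zero_iff.mpr h3
  field_simp

/-! ### The parameters -/

/-- The parameters of the Blaschke products: `0` at powers of four and extremely close to one
otherwise. -/
noncomputable def rr (n : ℕ) : ℝ :=
  if n = 4 ^ Nat.log 4 n then 0 else 1 - ((1 : ℝ) / 16) ^ (Nat.log 4 n + 1)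

/-- The positions `F_n(0) = 1 - 1/(n+1)`. -/
noncomputable def aa (n : ℕ) : ℝ := 1 - 1 / ((n : ℝ) + 1)

lemma rr_abs (n : ℕ) : |rr n| < 1 := by
  unfold rr
  split_ifs
  · simp
  · have h1 : ((1 : ℝ) / 16) ^ (Nat.log 4 n + 1) ≤ 1 := pow_le_one₀ (by norm_num) (by norm_num)
    have h2 : 0 < ((1 : ℝ) / 16) ^ (Nat.log 4 n + 1) := by positivity
    rw [abs_of_nonneg (by linarith)]
    linarith

lemma aa_abs (n : ℕ) : |aa n| < 1 := by
  unfold aa
  have h1 : 0 < 1 / ((n : ℝ) + 1) := by positivity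
  have h2 : 1 / ((n : ℝ) + 1) ≤ 1 := by
    rw [div_le_one (by positivity)]
    have : (0 : ℝ) ≤ n := by positivity
    linarith
  rw [abs_of_nonneg (by linarith)]
  linarith

/-- The inner part of the composition. -/
noncomputable def PP : ℕ → ℂ → ℂ
  | 0 => id
  | n + 1 => hh (rr (n + 1)) ∘ PP n

/-- The degree-two Blaschke products of the example. -/
noncomputable def ff (n : ℕ) : ℂ → ℂ :=
  fun z => mob (aa (n + 1)) (hh (rr (n + 1)) (mob (-aa n) z))

lemma PP_lt (n : ℕ) {z : ℂ} (hz : ‖z‖ < 1) : ‖PP n z‖ < 1 := by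
  induction n with
  | zero => simpa [PP] using hz
  | succ n ih => exact hh_lt (rr_abs _) ih

lemma PP_eq (n : ℕ) {z : ℂ} (hz : ‖z‖ = 1) : ‖PP n z‖ = 1 := by
  induction n with
  | zero => simpa [PP] using hz
  | succ n ih => exact hh_eq (rr_abs _) ih

lemma PP_le (n : ℕ) {z : ℂ} (hz : ‖z‖ ≤ 1) : ‖PP n z‖ ≤ 1 := by
  rcases hz.lt_or_eq with h | h
  · exact (PP_lt n h).le
  · exact (PP_eq n h).le

lemma PP_zero (n : ℕ) : PP n 0 = 0 := by
  induction n with
  | zero => simp [PP]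
  | succ n ih => simp [PP, ih, hh_zero]

lemma PP_diff (n : ℕ) {z : ℂ} (hz : ‖z‖ ≤ 1) : DifferentiableAt ℂ (PP n) z := by
  induction n with
  | zero => exact differentiableAt_id
  | succ n ih => exact (hh_diff (rr_abs _) (PP_le n hz)).comp z ih

lemma PP_anti {z : ℂ} (hz : ‖z‖ ≤ 1) : Antitone (fun n => ‖PP n z‖) :=
  antitone_nat_of_succ_le (fun n => hh_le_norm (rr_abs _) (PP_le n hz))

lemma forward_eq (n : ℕ) {z : ℂ} (hz : ‖z‖ ≤ 1) : forward ff n z = mob (aa n) (PP n z) := by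
  induction n with
  | zero => simp [forward, PP, mob, aa]
  | succ n ih =>
    simp only [forward, Function.comp_apply, ff, ih, PP]
    rw [mob_inv (aa_abs n) (PP_le n hz)]

lemma PP_pow (k : ℕ) {z : ℂ} (hz : ‖z‖ < 1) : ‖PP (4 ^ k) z‖ ≤ ‖z‖ ^ (k + 1) := by
  have key : ∀ k, ‖PP (4 ^ k) z‖ = ‖PP (4 ^ k - 1) z‖ ^ 2 := by
    intro k
    obtain ⟨m, hm⟩ : ∃ m, 4 ^ k = m + 1 := ⟨4 ^ k - 1, by
      have : 0 < 4 ^ k := by positivity
      omega⟩
    rw [hm, Nat.add_sub_cancel]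
    simp only [PP, Function.comp_apply, hh, mob]
    have : rr (m + 1) = 0 := by
      unfold rr
      rw [← hm, Nat.log_pow (by norm_num), if_pos rfl]
    rw [this]
    simp [sq]
  induction k with
  | zero =>
    have h1 := hh_le_norm (rr_abs 1) (z := z) hz.le
    simpa [PP] using h1
  | succ k ih =>
    rw [key (k + 1)]
    have h1 : ‖PP (4 ^ (k + 1) - 1) z‖ ≤ ‖PP (4 ^ k) z‖ := by
      apply PP_anti hz.le
      have : 0 < 4 ^ k := by positivity
      rw [pow_succ]
      omega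
    have h2 : ‖PP (4 ^ (k + 1) - 1) z‖ ≤ ‖z‖ := by
      have := PP_anti hz.le (Nat.zero_le (4 ^ (k + 1) - 1))
      simpa [PP] using this
    calc ‖PP (4 ^ (k + 1) - 1) z‖ ^ 2 =
        ‖PP (4 ^ (k + 1) - 1) z‖ * ‖PP (4 ^ (k + 1) - 1) z‖ := by ring
      _ ≤ ‖z‖ ^ (k + 1) * ‖z‖ := by
          apply mul_le_mul (h1.trans ih) h2 (norm_nonneg _) (by positivity)
      _ = _ := by rw [← pow_succ]

lemma PP_tendsto {z : ℂ} (hz : ‖z‖ < 1) : Tendsto (fun n => PP n z) atTop (𝓝 0) := by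
  rw [tendsto_zero_iff_norm_tendsto_zero]
  have h1 : Tendsto (fun k : ℕ => ‖z‖ ^ (k + 1)) atTop (𝓝 0) :=
    (tendsto_pow_atTop_nhds_zero_of_lt_one (norm_nonneg _) hz).comp (tendsto_add_atTop_nat 1)
  rw [Metric.tendsto_atTop] at h1 ⊢
  intro ε hε
  obtain ⟨k, hk⟩ := h1 ε hε
  refine ⟨4 ^ k, fun n hn => ?_⟩
  have h2 := hk k le_rfl
  rw [Real.dist_eq, sub_zero, abs_of_nonneg (by positivity)] at h2 ⊢
  exact lt_of_le_of_lt ((PP_anti hz.le hn).trans (PP_pow k hz)) h2

/-! ### Distribution of the boundary values -/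

/-- The set of angles where `G` is `δ`-close to `-1` has measure at most `8 π δ`. -/
lemma measure_near {G : ℂ → ℂ} (hG : ∀ z, ‖z‖ ≤ 1 → DifferentiableAt ℂ G z)
    (hle : ∀ z, ‖z‖ ≤ 1 → ‖G z‖ ≤ 1) (hone : ∀ z, ‖z‖ = 1 → ‖G z‖ = 1) (h0 : G 0 = 0)
    {δ : ℝ} (hδ0 : 0 < δ) (hδ1 : δ < 1) :
    (volume.restrict (Ioc 0 (2 * Real.pi))) {θ : ℝ | ‖G (exp (θ * I)) + 1‖ < δ} ≤
      ENNReal.ofReal (8 * Real.pi * δ) := by
  set ρ : ℝ := 1 - δ with hρ
  have hρ1 : |ρ| < 1 := by rw [abs_of_nonneg (by linarith)]; linarith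
  let g : ℂ → ℂ := fun z => (1 - ρ * G z) / (1 + ρ * G z)
  have hgd : ∀ z, ‖z‖ ≤ 1 → DifferentiableAt ℂ g z := by
    intro z hz
    have := hG z hz
    refine DifferentiableAt.fun_div (c := fun z : ℂ => 1 - ρ * G z)
      (d := fun z : ℂ => 1 + ρ * G z) (by fun_prop) (by fun_prop) ?_
    exact den_ne hρ1 (hle z hz)
  have hgd' : DiffContOnCl ℂ g (ball 0 |1|) := by
    apply DifferentiableOn.diffContOnCl
    intro z hz
    rw [abs_one, closure_ball (0 : ℂ) one_ne_zero, mem_closedBall, dist_zero_right] at hz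
    exact (hgd z hz).differentiableWithinAt
  have hmv := hgd'.circleAverage
  have hg0 : g 0 = 1 := by simp [g, h0]
  rw [hg0, Real.circleAverage_def] at hmv
  have hcm : ∀ θ : ℝ, circleMap 0 1 θ = exp (θ * I) := by intro θ; simp [circleMap]
  simp only [hcm] at hmv
  have hnorm : ∀ θ : ℝ, ‖exp ((θ : ℂ) * I)‖ = 1 := fun θ => Complex.norm_exp_ofReal_mul_I θ
  have hcont : Continuous (fun θ : ℝ => g (exp (θ * I))) := by
    rw [continuous_iff_continuousAt]
    intro θ
    exact ContinuousAt.comp (f := fun θ : ℝ => exp ((θ : ℂ) * I)) (g := g)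
      ((hgd _ (hnorm θ).le).continuousAt) (by fun_prop)
  have hint : IntervalIntegrable (fun θ : ℝ => g (exp (θ * I))) volume 0 (2 * Real.pi) :=
    hcont.intervalIntegrable _ _
  have hpi : (0 : ℝ) < 2 * Real.pi := by positivity
  have hval : ∫ θ in (0 : ℝ)..(2 * Real.pi), g (exp (θ * I)) = ((2 * Real.pi : ℝ) : ℂ) := by
    have : (2 * Real.pi) • ((2 * Real.pi)⁻¹ • ∫ θ in (0 : ℝ)..(2 * Real.pi), g (exp (θ * I))) =
        (2 * Real.pi) • (1 : ℂ) := by rw [hmv]
    rw [smul_smul, mul_inv_cancel₀ hpi.ne', one_smul] at this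
    rw [this]
    simp
  have hre : ∫ θ in (0 : ℝ)..(2 * Real.pi), (g (exp (θ * I))).re = 2 * Real.pi := by
    have h1 := (intervalIntegral.intervalIntegral_re hint (𝕜 := ℂ))
    have h2 : ∫ θ in (0 : ℝ)..(2 * Real.pi), (g (exp (θ * I))).re =
        (∫ θ in (0 : ℝ)..(2 * Real.pi), g (exp (θ * I))).re := h1
    rw [h2, hval, Complex.ofReal_re]
  rw [intervalIntegral.integral_of_le hpi.le] at hre
  -- formula for the real part
  have hreval : ∀ θ : ℝ, (g (exp (θ * I))).re =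
      (1 - ρ ^ 2) / ‖1 + ρ * G (exp (θ * I))‖ ^ 2 := by
    intro θ
    set w := G (exp (θ * I)) with hw
    have hw1 : ‖w‖ ^ 2 = 1 := by rw [hw, hone _ (hnorm θ), one_pow]
    have hw2 : w.re * w.re + w.im * w.im = 1 := by
      rw [← Complex.normSq_apply, Complex.normSq_eq_norm_sq, hw1]
    change ((1 - ρ * w) / (1 + ρ * w)).re = _
    rw [Complex.div_re, ← Complex.normSq_eq_norm_sq, ← add_div]
    congr 1
    simp
    linear_combination (-ρ ^ 2) * hw2
  have hpos : ∀ θ : ℝ, 0 ≤ (g (exp (θ * I))).re := by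
    intro θ
    rw [hreval]
    have : 0 ≤ 1 - ρ ^ 2 := by nlinarith
    positivity
  have hintg : Integrable (fun θ : ℝ => (g (exp (θ * I))).re)
      (volume.restrict (Ioc 0 (2 * Real.pi))) := by
    have : Continuous (fun θ : ℝ => (g (exp (θ * I))).re) := Complex.continuous_re.comp hcont
    exact (this.integrableOn_Icc (a := 0) (b := 2 * Real.pi)).mono_set Ioc_subset_Icc_self
  have hmarkov := mul_meas_ge_le_integral_of_nonneg (μ := volume.restrict (Ioc 0 (2 * Real.pi)))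
    (f := fun θ : ℝ => (g (exp (θ * I))).re) (Eventually.of_forall hpos) hintg (1 / (4 * δ))
  rw [hre] at hmarkov
  have hsub : {θ : ℝ | ‖G (exp (θ * I)) + 1‖ < δ} ⊆
      {θ : ℝ | 1 / (4 * δ) ≤ (g (exp (θ * I))).re} := by
    intro θ hθ
    simp only [mem_ofPred_eq] at hθ ⊢
    rw [hreval]
    set w := G (exp (θ * I)) with hw
    have hne : (1 : ℂ) + ρ * w ≠ 0 := den_ne hρ1 (by rw [hw, hone _ (hnorm θ)])
    have hn : 0 < ‖(1 : ℂ) + ρ * w‖ := norm_pos_iff.mpr hne
    have hle2 : ‖(1 : ℂ) + ρ * w‖ ≤ 2 * δ := by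
      have e : (1 : ℂ) + ρ * w = (w + 1) - δ * w := by
        rw [hρ]; push_cast; ring
      rw [e]
      refine (norm_sub_le _ _).trans ?_
      rw [norm_mul, hw, hone _ (hnorm θ), Complex.norm_real, Real.norm_eq_abs, abs_of_pos hδ0]
      linarith
    rw [div_le_div_iff₀ (by positivity) (by positivity)]
    have h1 : ‖(1 : ℂ) + ρ * w‖ ^ 2 ≤ (2 * δ) ^ 2 := by gcongr
    have h2 : 1 - ρ ^ 2 ≥ δ := by rw [hρ]; nlinarith
    nlinarith
  have hfin : (volume.restrict (Ioc 0 (2 * Real.pi)))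
      {θ : ℝ | 1 / (4 * δ) ≤ (g (exp (θ * I))).re} ≠ ⊤ := measure_ne_top _ _
  refine (measure_mono hsub).trans ?_
  rw [← ENNReal.ofReal_toReal hfin]
  apply ENNReal.ofReal_le_ofReal
  have h3 : 1 / (4 * δ) * ((volume.restrict (Ioc 0 (2 * Real.pi)))
      {θ : ℝ | 1 / (4 * δ) ≤ (g (exp (θ * I))).re}).toReal ≤ 2 * Real.pi := hmarkov
  rw [div_mul_eq_mul_div, one_mul, div_le_iff₀ (by positivity)] at h3
  linarith

/-- Evolution inside a block. -/
lemma block {ζ : ℂ} (hζ : ‖ζ‖ = 1) (k : ℕ)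
    (hk : 2 * ((1 : ℝ) / 2) ^ k ≤ ‖PP (4 ^ k) ζ + 1‖) (j : ℕ) (hj : 4 ^ k + j < 4 ^ (k + 1)) :
    ‖PP (4 ^ k + j) ζ - PP (4 ^ k) ζ‖ ≤
      j * (4 * ((1 : ℝ) / 16) ^ (k + 1) * 2 ^ k) := by
  induction j with
  | zero => simp
  | succ j ih =>
    have ih' := ih (by omega)
    have hjlt : (j : ℝ) + 1 ≤ 4 ^ (k + 1) := by
      have : j + 1 ≤ 4 ^ (k + 1) := by omega
      exact_mod_cast this
    set w := PP (4 ^ k + j) ζ with hw
    have hw1 : ‖w‖ = 1 := PP_eq _ hζ
    have hsmall : (j : ℝ) * (4 * ((1 : ℝ) / 16) ^ (k + 1) * 2 ^ k) ≤ ((1 : ℝ) / 2) ^ k := by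
      calc (j : ℝ) * (4 * ((1 : ℝ) / 16) ^ (k + 1) * 2 ^ k) ≤
          4 ^ (k + 1) * (4 * ((1 : ℝ) / 16) ^ (k + 1) * 2 ^ k) := by
            gcongr; linarith
        _ = 4 * (4 * (1 / 16)) ^ (k + 1) * 2 ^ k := by rw [mul_pow]; ring
        _ = ((4 * (1 / 16)) * 2 : ℝ) ^ k := by rw [mul_pow _ _ k, pow_succ]; ring
        _ = ((1 : ℝ) / 2) ^ k := by norm_num
    have hw2 : ((1 : ℝ) / 2) ^ k ≤ ‖w + 1‖ := by
      have : PP (4 ^ k) ζ + 1 = (w + 1) - (w - PP (4 ^ k) ζ) := by ring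
      have h1 : ‖PP (4 ^ k) ζ + 1‖ ≤ ‖w + 1‖ + ‖w - PP (4 ^ k) ζ‖ := by
        rw [this]; exact norm_sub_le _ _
      linarith
    have hrr : rr (4 ^ k + j + 1) = 1 - ((1 : ℝ) / 16) ^ (k + 1) := by
      have hlog : Nat.log 4 (4 ^ k + j + 1) = k := by
        rw [Nat.log_eq_iff (Or.inr ⟨by norm_num, by omega⟩)]
        constructor
        · omega
        · omega
      unfold rr
      rw [hlog, if_neg (by omega)]
    have hstep : ‖hh (rr (4 ^ k + j + 1)) w - w‖ ≤ 4 * ((1 : ℝ) / 16) ^ (k + 1) * 2 ^ k := by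
      set r := rr (4 ^ k + j + 1) with hr
      set t := ((1 : ℝ) / 16) ^ (k + 1) with ht
      have ht0 : 0 < t := by positivity
      have ht1 : t ≤ 1 / 16 := by
        rw [ht]
        calc ((1 : ℝ) / 16) ^ (k + 1) ≤ (1 / 16) ^ 1 :=
              pow_le_pow_of_le_one (by norm_num) (by norm_num) (by omega)
          _ = 1 / 16 := by norm_num
      have hr1 : |r| < 1 := rr_abs _
      have hne : (1 : ℂ) + r * w ≠ 0 := den_ne hr1 hw1.le
      have hnec : (1 : ℂ) + w * r ≠ 0 := by rw [mul_comm]; exact hne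
      have e : hh r w - w = w * ((1 - r) * (w - 1)) / (1 + r * w) := by
        unfold hh mob
        field_simp
        ring
      have hden : ‖w + 1‖ / 2 ≤ ‖(1 : ℂ) + r * w‖ := by
        have e1 : ‖(1 : ℂ) + r * w‖ ^ 2 = (1 - r) ^ 2 + r * ‖w + 1‖ ^ 2 := by
          have hw3 : w.re * w.re + w.im * w.im = 1 := by
            rw [← Complex.normSq_apply, Complex.normSq_eq_norm_sq, hw1, one_pow]
          rw [← Complex.normSq_eq_norm_sq, ← Complex.normSq_eq_norm_sq, Complex.normSq_apply,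
            Complex.normSq_apply]
          simp
          linear_combination (r ^ 2 - r) * hw3
        have e2 : (‖w + 1‖ / 2) ^ 2 ≤ ‖(1 : ℂ) + r * w‖ ^ 2 := by
          rw [e1]
          have : r ≥ 1 / 4 := by rw [hrr]; linarith
          nlinarith [sq_nonneg (1 - r), sq_nonneg ‖w + 1‖]
        exact (pow_le_pow_iff_left₀ (by positivity) (norm_nonneg _) (by norm_num)).mp e2
      have hpos : 0 < ‖w + 1‖ := lt_of_lt_of_le (by positivity) hw2
      have hpos' : 0 < ‖(1 : ℂ) + r * w‖ := norm_pos_iff.mpr hne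
      rw [e, norm_div, norm_mul, norm_mul, hw1, one_mul, div_le_iff₀ hpos']
      have h1 : ‖(1 : ℂ) - r‖ = t := by
        have : (1 : ℂ) - r = ((t : ℝ) : ℂ) := by rw [hrr]; push_cast; ring
        rw [this, Complex.norm_real, Real.norm_eq_abs, abs_of_pos ht0]
      have h2 : ‖w - 1‖ ≤ 2 := by
        refine (norm_sub_le _ _).trans ?_
        rw [hw1, norm_one]; norm_num
      rw [h1]
      have h3 : (1 : ℝ) ≤ 2 ^ k * ‖w + 1‖ := by
        calc (1 : ℝ) = 2 ^ k * ((1 : ℝ) / 2) ^ k := by rw [← mul_pow]; norm_num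
          _ ≤ _ := by gcongr
      calc t * ‖w - 1‖ ≤ t * 2 := by gcongr
        _ = 4 * t * (1 / 2) := by ring
        _ ≤ 4 * t * (2 ^ k * ‖w + 1‖ / 2) := by gcongr
        _ = 4 * t * 2 ^ k * (‖w + 1‖ / 2) := by ring
        _ ≤ 4 * t * 2 ^ k * ‖(1 : ℂ) + r * w‖ := by gcongr
    have hsucc : PP (4 ^ k + (j + 1)) ζ = hh (rr (4 ^ k + j + 1)) w := rfl
    rw [hsucc]
    have : hh (rr (4 ^ k + j + 1)) w - PP (4 ^ k) ζ =
        (hh (rr (4 ^ k + j + 1)) w - w) + (w - PP (4 ^ k) ζ) := by ring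
    rw [this]
    refine (norm_add_le _ _).trans ?_
    push_cast
    linarith

/-- Full statement. There is a forward composition of (non-injective) inner functions which is
contracting, with interior orbits converging to the boundary, divergent series, and such that
almost every boundary point belongs to the Denjoy-Wolff set. -/
theorem result : ∃ f : ℕ → ℂ → ℂ,
    (∀ n, IsInner (f n)) ∧ (∀ n, ¬ InjOn (f n) (ball 0 1)) ∧
    (∀ z ∈ ball (0 : ℂ) 1, ∀ z' ∈ ball (0 : ℂ) 1,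
      Tendsto (fun n => hypDist (forward f n z) (forward f n z')) atTop (𝓝 0)) ∧
    (∀ z ∈ ball (0 : ℂ) 1, Tendsto (fun n => ‖forward f n z‖) atTop (𝓝 1)) ∧
    ¬ Summable (fun n => 1 - ‖forward f n 0‖) ∧
    (∀ᵐ θ ∂(volume.restrict (Ioc 0 (2 * Real.pi))), θ ∈ DWSet (forward f)) := by
  have hball : ∀ z : ℂ, z ∈ ball (0 : ℂ) 1 ↔ ‖z‖ < 1 := by intro z; simp
  have hnorm : ∀ θ : ℝ, ‖exp ((θ : ℂ) * I)‖ = 1 := fun θ => Complex.norm_exp_ofReal_mul_I θ
  have habs : ∀ n, |-aa n| < 1 := fun n => by rw [abs_neg]; exact aa_abs n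
  have haa : Tendsto aa atTop (𝓝 1) := by
    have := (tendsto_one_div_add_atTop_nhds_zero_nat (𝕜 := ℝ)).const_sub 1
    rw [sub_zero] at this
    exact this
  -- radial limits of maps continuous at the boundary point
  have hrad : ∀ (g : ℂ → ℂ) (θ : ℝ), ContinuousAt g (exp (θ * I)) →
      RadialLimit g θ (g (exp (θ * I))) := by
    intro g θ hg
    unfold RadialLimit
    have h1 : Tendsto (fun t : ℝ => (t : ℂ) * exp (θ * I)) (𝓝[<] 1) (𝓝 (exp (θ * I))) := by
      have : Continuous (fun t : ℝ => (t : ℂ) * exp (θ * I)) := by fun_prop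
      have h2 := (this.tendsto 1)
      simp only [Complex.ofReal_one, one_mul] at h2
      exact h2.mono_left nhdsWithin_le_nhds
    exact hg.tendsto.comp h1
  have hfd : ∀ n (z : ℂ), ‖z‖ ≤ 1 → DifferentiableAt ℂ (ff n) z := by
    intro n z hz
    have d1 := mob_diff (habs n) hz
    have n1 := mob_le (habs n) hz
    have d2 := hh_diff (rr_abs (n + 1)) n1
    have n2 : ‖hh (rr (n + 1)) (mob (-aa n) z)‖ ≤ 1 := (hh_le_norm (rr_abs _) n1).trans n1
    have d3 := mob_diff (aa_abs (n + 1)) n2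
    exact d3.comp z (d2.comp z d1)
  refine ⟨ff, ?_, ?_, ?_, ?_, ?_, ?_⟩
  · intro n
    refine ⟨fun z hz => (hfd n z ((hball z).mp hz).le).differentiableWithinAt, ?_, ?_⟩
    · intro z hz
      rw [hball] at hz ⊢
      exact mob_lt (aa_abs _) (hh_lt (rr_abs _) (mob_lt (habs n) hz))
    · refine Eventually.of_forall (fun θ => ⟨ff n (exp (θ * I)), ?_, ?_⟩)
      · exact mob_eq (aa_abs _) (hh_eq (rr_abs _) (mob_eq (habs n) (hnorm θ)))
      · exact hrad _ θ (hfd n _ (hnorm θ).le).continuousAt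
  · -- not injective
    intro n hinj
    obtain ⟨u, v, hu, hv, huv, he⟩ : ∃ u v : ℂ, ‖u‖ < 1 ∧ ‖v‖ < 1 ∧ u ≠ v ∧
        hh (rr (n + 1)) u = hh (rr (n + 1)) v := by
      by_cases h0 : rr (n + 1) = 0
      · refine ⟨1 / 2, -(1 / 2), by norm_num, by rw [norm_neg]; norm_num, by norm_num, ?_⟩
        rw [h0]
        simp [hh, mob]
      · refine ⟨0, -(rr (n + 1) : ℝ), by simp, ?_, ?_, ?_⟩
        · rw [norm_neg, Complex.norm_real, Real.norm_eq_abs]; exact rr_abs _
        · intro h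
          apply h0
          have : ((rr (n + 1) : ℝ) : ℂ) = 0 := by linear_combination h
          exact_mod_cast this
        · simp [hh, mob]
    have h1 : mob (aa n) u = mob (aa n) v := by
      apply hinj
      · rw [hball]; exact mob_lt (aa_abs n) hu
      · rw [hball]; exact mob_lt (aa_abs n) hv
      · simp only [ff]
        rw [mob_inv (aa_abs n) hu.le, mob_inv (aa_abs n) hv.le, he]
    apply huv
    rw [← mob_inv (aa_abs n) hu.le, h1, mob_inv (aa_abs n) hv.le]
  · intro z hz z' hz'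
    rw [hball] at hz hz'
    have h1 : ∀ n, hypDist (forward ff n z) (forward ff n z') =
        2 * Real.artanh ‖(PP n z - PP n z') / (1 - (starRingEnd ℂ) (PP n z') * PP n z)‖ := by
      intro n
      unfold hypDist
      rw [forward_eq n hz.le, forward_eq n hz'.le,
        mob_pseudo (aa_abs n) (PP_lt n hz) (PP_lt n hz')]
    have h2 : Tendsto (fun n => ‖(PP n z - PP n z') /
        (1 - (starRingEnd ℂ) (PP n z') * PP n z)‖) atTop (𝓝 0) := by
      have t1 := PP_tendsto hz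
      have t2 := PP_tendsto hz'
      have t3 : Tendsto (fun n => (starRingEnd ℂ) (PP n z')) atTop (𝓝 ((starRingEnd ℂ) 0)) :=
        (Complex.continuous_conj.tendsto 0).comp t2
      have t4 := ((t1.sub t2).div ((tendsto_const_nhds (x := (1 : ℂ))).sub (t3.mul t1))
        (by simp)).norm
      simpa using t4
    have h3 : ContinuousAt Real.artanh 0 := by
      unfold Real.artanh
      apply ContinuousAt.log
      · apply ContinuousAt.sqrt
        apply ContinuousAt.div (by fun_prop) (by fun_prop) (by norm_num)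
      · norm_num
    have h4 := (h3.tendsto.comp h2).const_mul 2
    simp only [h1]
    simpa using h4
  · intro z hz
    rw [hball] at hz
    have h1 : Tendsto (fun n => forward ff n z) atTop (𝓝 1) := by
      have t1 := PP_tendsto hz
      have t2 : Tendsto (fun n => ((aa n : ℝ) : ℂ)) atTop (𝓝 ((1 : ℝ) : ℂ)) :=
        (Complex.continuous_ofReal.tendsto 1).comp haa
      have t3 := (t1.add t2).div ((tendsto_const_nhds (x := (1 : ℂ))).add (t2.mul t1))
        (by simp)
      have t4 : ∀ n, forward ff n z = (PP n z + (aa n : ℝ)) / (1 + (aa n : ℝ) * PP n z) :=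
        fun n => forward_eq n hz.le
      have t5 : (fun n => forward ff n z) = ((fun n => PP n z + (aa n : ℝ)) /
          fun n => 1 + ((aa n : ℝ) : ℂ) * PP n z) := by
        funext n
        rw [t4 n]
        rfl
      rw [t5]
      convert t3 using 2
      simp
    simpa using h1.norm
  · have h1 : ∀ n, 1 - ‖forward ff n 0‖ = 1 / ((n : ℝ) + 1) := by
      intro n
      rw [forward_eq n (by simp), PP_zero]
      have h2 : mob (aa n) 0 = ((aa n : ℝ) : ℂ) := by simp [mob]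
      rw [h2, Complex.norm_real, Real.norm_eq_abs]
      have h3 : 0 ≤ aa n := by
        unfold aa
        have h2 : 1 / ((n : ℝ) + 1) ≤ 1 := by
          rw [div_le_one (by positivity)]
          have : (0 : ℝ) ≤ n := by positivity
          linarith
        linarith
      rw [abs_of_nonneg h3]
      unfold aa
      ring
    simp only [h1]
    intro hs
    have h2 : ¬ Summable (fun n : ℕ => 1 / ((n : ℝ))) := Real.not_summable_one_div_natCast
    apply h2
    rw [← summable_nat_add_iff 1]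
    simpa using hs
  · -- almost every boundary point
    let E : ℕ → Set ℝ := fun k => {θ : ℝ | ‖PP (4 ^ k) (exp (θ * I)) + 1‖ < 2 * ((1 : ℝ) / 2) ^ k}
    have hE : ∀ k, (volume.restrict (Ioc 0 (2 * Real.pi))) (E (k + 2)) ≤
        ENNReal.ofReal (8 * Real.pi * (2 * ((1 : ℝ) / 2) ^ (k + 2))) := by
      intro k
      apply measure_near (fun z hz => PP_diff _ hz) (fun z hz => PP_le _ hz)
        (fun z hz => PP_eq _ hz) (PP_zero _) (by positivity)
      have : ((1 : ℝ) / 2) ^ k ≤ 1 := pow_le_one₀ (by norm_num) (by norm_num)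
      rw [pow_add]
      linarith
    have hsum : ∑' k, (volume.restrict (Ioc 0 (2 * Real.pi))) (E (k + 2)) ≠ ⊤ := by
      have h1 : Summable (fun k : ℕ => 8 * Real.pi * (2 * ((1 : ℝ) / 2) ^ (k + 2))) := by
        have : Summable (fun k : ℕ => ((1 : ℝ) / 2) ^ k) := summable_geometric_two
        have h2 := (this.mul_left (8 * Real.pi * 2 * (1 / 4)))
        refine h2.congr (fun k => ?_)
        rw [pow_add]; ring
      have h2 := h1.tsum_ofReal_ne_top
      exact ne_top_of_le_ne_top h2 (ENNReal.tsum_le_tsum hE)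
    have hbc := ae_eventually_notMem hsum
    filter_upwards [hbc] with θ hθ
    set ζ := exp ((θ : ℂ) * I) with hζdef
    have hζ : ‖ζ‖ = 1 := hnorm θ
    have hFd : ∀ n, ContinuousAt (forward ff n) ζ := by
      intro n
      have : ∀ m, ‖forward ff m ζ‖ = 1 ∧ DifferentiableAt ℂ (forward ff m) ζ := by
        intro m
        induction m with
        | zero => exact ⟨hζ, differentiableAt_id⟩
        | succ m ih =>
          refine ⟨?_, (hfd m _ ih.1.le).comp ζ ih.2⟩
          exact mob_eq (aa_abs _) (hh_eq (rr_abs _) (mob_eq (habs m) ih.1))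
      exact (this n).2.continuousAt
    refine ⟨fun n => forward ff n ζ, fun n => hrad _ θ (hFd n), ?_⟩
    have hF0 : ∀ n, forward ff n 0 = ((aa n : ℝ) : ℂ) := by
      intro n
      rw [forward_eq n (by simp), PP_zero]
      simp [mob]
    -- F_n ζ → 1
    have hlim : Tendsto (fun n => forward ff n ζ) atTop (𝓝 1) := by
      rw [eventually_atTop] at hθ
      obtain ⟨k₀, hk₀⟩ := hθ
      rw [tendsto_iff_norm_sub_tendsto_zero]
      have hb : ∀ n, 4 ^ (k₀ + 2) ≤ n →
          ‖forward ff n ζ - 1‖ ≤ 4 * ((1 : ℝ) / 2) ^ (Nat.log 4 n) := by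
        intro n hn
        have hn0 : n ≠ 0 := by
          have : 0 < 4 ^ (k₀ + 2) := by positivity
          omega
        set k := Nat.log 4 n with hk
        have hkk : k₀ + 2 ≤ k := (Nat.le_log_iff_pow_le (by norm_num) hn0).mpr hn
        have hlow : 4 ^ k ≤ n := Nat.pow_log_le_self 4 hn0
        have hup : n < 4 ^ (k + 1) := Nat.lt_pow_succ_log_self (by norm_num) n
        have hnot := hk₀ (k - 2) (by omega)
        rw [show k - 2 + 2 = k by omega] at hnot
        have hbig : 2 * ((1 : ℝ) / 2) ^ k ≤ ‖PP (4 ^ k) ζ + 1‖ := not_lt.mp hnot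
        obtain ⟨j, hj⟩ : ∃ j, n = 4 ^ k + j := ⟨n - 4 ^ k, by omega⟩
        have hbl := block hζ k hbig j (by omega)
        rw [← hj] at hbl
        set w := PP n ζ with hw
        have hw1 : ‖w‖ = 1 := PP_eq _ hζ
        have hjlt : (j : ℝ) ≤ 4 ^ (k + 1) := by
          have : j ≤ 4 ^ (k + 1) := by omega
          exact_mod_cast this
        have hsmall : (j : ℝ) * (4 * ((1 : ℝ) / 16) ^ (k + 1) * 2 ^ k) ≤ ((1 : ℝ) / 2) ^ k := by
          calc (j : ℝ) * (4 * ((1 : ℝ) / 16) ^ (k + 1) * 2 ^ k) ≤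
              4 ^ (k + 1) * (4 * ((1 : ℝ) / 16) ^ (k + 1) * 2 ^ k) := by
                gcongr
            _ = 4 * (4 * (1 / 16)) ^ (k + 1) * 2 ^ k := by rw [mul_pow]; ring
            _ = ((4 * (1 / 16)) * 2 : ℝ) ^ k := by rw [mul_pow _ _ k, pow_succ]; ring
            _ = ((1 : ℝ) / 2) ^ k := by norm_num
        have hw2 : ((1 : ℝ) / 2) ^ k ≤ ‖w + 1‖ := by
          have : PP (4 ^ k) ζ + 1 = (w + 1) - (w - PP (4 ^ k) ζ) := by ring
          have h1 : ‖PP (4 ^ k) ζ + 1‖ ≤ ‖w + 1‖ + ‖w - PP (4 ^ k) ζ‖ := by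
            rw [this]; exact norm_sub_le _ _
          linarith
        rw [forward_eq _ hζ.le, ← hw]
        set a := aa n with ha
        have ha1 : |a| < 1 := aa_abs n
        have hn4 : (4 : ℝ) ^ k ≤ n := by exact_mod_cast hlow
        have h4k : (1 : ℝ) ≤ 4 ^ k := one_le_pow₀ (by norm_num)
        have hk2 : (16 : ℝ) ≤ 4 ^ k := by
          calc (16 : ℝ) = 4 ^ 2 := by norm_num
            _ ≤ 4 ^ k := pow_le_pow_right₀ (by norm_num) (by omega)
        have hav : 1 - a = 1 / ((n : ℝ) + 1) := by rw [ha, aa]; ring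
        have hav2 : 1 - a ≤ (1 / 4) ^ k := by
          rw [hav, div_pow, one_pow]
          apply one_div_le_one_div_of_le (by positivity)
          linarith
        have hav0 : 0 < 1 - a := by rw [hav]; positivity
        have ha4 : 1 / 4 ≤ a := by
          have : 1 / ((n : ℝ) + 1) ≤ 3 / 4 := by
            rw [div_le_div_iff₀ (by positivity) (by norm_num)]
            linarith
          linarith
        have hne : (1 : ℂ) + a * w ≠ 0 := den_ne ha1 hw1.le
        have hnec : (1 : ℂ) + w * a ≠ 0 := by rw [mul_comm]; exact hne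
        have e : mob a w - 1 = (1 - a) * (w - 1) / (1 + a * w) := by
          unfold mob
          field_simp
          ring
        have hden : ‖w + 1‖ / 2 ≤ ‖(1 : ℂ) + a * w‖ := by
          have e1 : ‖(1 : ℂ) + a * w‖ ^ 2 = (1 - a) ^ 2 + a * ‖w + 1‖ ^ 2 := by
            have hw3 : w.re * w.re + w.im * w.im = 1 := by
              rw [← Complex.normSq_apply, Complex.normSq_eq_norm_sq, hw1, one_pow]
            rw [← Complex.normSq_eq_norm_sq, ← Complex.normSq_eq_norm_sq, Complex.normSq_apply,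
              Complex.normSq_apply]
            simp
            linear_combination (a ^ 2 - a) * hw3
          have e2 : (‖w + 1‖ / 2) ^ 2 ≤ ‖(1 : ℂ) + a * w‖ ^ 2 := by
            rw [e1]
            nlinarith [sq_nonneg (1 - a), sq_nonneg ‖w + 1‖]
          exact (pow_le_pow_iff_left₀ (by positivity) (norm_nonneg _) (by norm_num)).mp e2
        have hpos' : 0 < ‖(1 : ℂ) + a * w‖ := norm_pos_iff.mpr hne
        rw [e, norm_div, norm_mul, div_le_iff₀ hpos']
        have h1 : ‖(1 : ℂ) - a‖ = 1 - a := by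
          have : (1 : ℂ) - a = (((1 - a : ℝ)) : ℂ) := by push_cast; ring
          rw [this, Complex.norm_real, Real.norm_eq_abs, abs_of_pos hav0]
        have h2 : ‖w - 1‖ ≤ 2 := by
          refine (norm_sub_le _ _).trans ?_
          rw [hw1, norm_one]; norm_num
        rw [h1]
        calc (1 - a) * ‖w - 1‖ ≤ (1 / 4) ^ k * 2 := by
              apply mul_le_mul hav2 h2 (norm_nonneg _) (by positivity)
          _ = 4 * (1 / 2) ^ k * ((1 / 2) ^ k / 2) := by
              have : ((1 : ℝ) / 4) ^ k = (1 / 2) ^ k * (1 / 2) ^ k := by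
                rw [← mul_pow]; norm_num
              rw [this]; ring
          _ ≤ 4 * (1 / 2) ^ k * (‖w + 1‖ / 2) := by gcongr
          _ ≤ _ := by gcongr
      have hlog : Tendsto (fun n : ℕ => 4 * ((1 : ℝ) / 2) ^ (Nat.log 4 n)) atTop (𝓝 0) := by
        have h1 : Tendsto (fun n : ℕ => Nat.log 4 n) atTop atTop := by
          rw [tendsto_atTop_atTop]
          intro m
          refine ⟨4 ^ m, fun n hn => ?_⟩
          have hn0 : n ≠ 0 := by
            have : 0 < 4 ^ m := by positivity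
            omega
          exact (Nat.le_log_iff_pow_le (by norm_num) hn0).mpr hn
        have h2 := ((tendsto_pow_atTop_nhds_zero_of_lt_one (r := (1 : ℝ) / 2) (by norm_num)
          (by norm_num)).comp h1).const_mul 4
        simpa using h2
      refine squeeze_zero' (Eventually.of_forall (fun n => norm_nonneg _)) ?_ hlog
      filter_upwards [eventually_ge_atTop (4 ^ (k₀ + 2))] with n hn using hb n hn
    have hlim2 : Tendsto (fun n => forward ff n 0) atTop (𝓝 1) := by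
      simp only [hF0]
      exact_mod_cast (Complex.continuous_ofReal.tendsto 1).comp haa
    simpa using (hlim.sub hlim2).norm

end Pool.Agent.Results.MP_9b5b1e_an.FullMeasure
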